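import Mathlib
import Pool.Agent.Lib.MP_cdddd3_co.Basic

set_option autoImplicit false

/-!
Uniqueness of the eigenfunctions of the Laplace-Beltrami operator with a given leading term.
-/

namespace Pool.Agent.MPcdddd3U

open MvPolynomial Finset Pool.Agent.MPcdddd3

variable {n : ℕ}

/-- the coefficients of the quotient `q` at a point above which `g` vanishes -/
theorem coeff_quot (i j : Fin n) (hij : i ≠ j) (g q : MvPolynomial (Fin n) ℝ)
    (hq : (X i - X j) * q = X i ^ 2 * pderiv i g - X j ^ 2 * pderiv j g) (t : ℕ) :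
    ∀ u : Fin n →₀ ℕ, u j = 0 →
      (∀ k l, 1 ≤ k → k + l = t → coeff (u + Finsupp.single i k + Finsupp.single j l) g = 0) →
      coeff (u + Finsupp.single j t) q = (u i : ℝ) * coeff (u + Finsupp.single j t) g := by
  have hq' : X i * q - X j * q = X i * (X i * pderiv i g) - X j * (X j * pderiv j g) := by
    linear_combination hq
  induction t with
  | zero =>
    intro u hu _
    have h := congrArg (coeff (Finsupp.single i 1 + u)) hq'
    rw [coeff_sub, coeff_sub, coeff_X_mul, coeff_X_mul, coeff_X_mul_pderiv, coeff_X_mul',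
      coeff_X_mul'] at h
    have hj : j ∉ (Finsupp.single i 1 + u).support := by
      simp [hu, hij]
    rw [if_neg hj, if_neg hj] at h
    simpa using h
  | succ t ih =>
    intro u hu hv
    have h := congrArg (coeff (Finsupp.single i 1 + (u + Finsupp.single j (t + 1)))) hq'
    have e1 : Finsupp.single i 1 + (u + Finsupp.single j (t + 1))
        = Finsupp.single j 1 + (u + Finsupp.single i 1 + Finsupp.single j t) := by
      rw [Finsupp.single_add j t 1]
      abel
    rw [coeff_sub, coeff_sub, coeff_X_mul, coeff_X_mul, coeff_X_mul_pderiv, e1, coeff_X_mul,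
      coeff_X_mul, coeff_X_mul_pderiv] at h
    have h0 : coeff (u + Finsupp.single i 1 + Finsupp.single j t) g = 0 :=
      hv 1 t le_rfl (by omega)
    have h1 := ih (u + Finsupp.single i 1) (by simp [hu, hij]) (by
      intro k l hk hkl
      have := hv (1 + k) l (by omega) (by omega)
      rw [Finsupp.single_add] at this
      rw [← this]
      congr 1
      abel)
    rw [h1, h0, mul_zero, mul_zero, sub_zero, sub_zero] at h
    rw [h]
    congr 1
    have : (Finsupp.single j (t + 1) : Fin n →₀ ℕ) i = 0 := by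
      simp [hij.symm]
    rw [Finsupp.add_apply, this, add_zero]

/-- the eigenvalue -/
noncomputable def ev (τ : ℝ) (a : Fin n → ℕ) : ℝ :=
  ∑ i, ((a i : ℝ) * a i - a i) + 2 * τ * ∑ i : Fin n, ∑ j : Fin n, (if i < j then (a i : ℝ) else 0)

/-- `g` vanishes above `m` -/
def Above (g : MvPolynomial (Fin n) ℝ) (m : Fin n →₀ ℕ) : Prop :=
  ∀ i j : Fin n, i < j → ∀ m' : Fin n →₀ ℕ, ∀ k, 1 ≤ k →
    m' + Finsupp.single j k = m + Finsupp.single i k → coeff m' g = 0

/-- `f` is an eigenfunction -/
def Eig (τ : ℝ) (f : MvPolynomial (Fin n) ℝ) (e : ℝ) : Prop :=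
  ∃ q : Fin n → Fin n → MvPolynomial (Fin n) ℝ,
    (∀ i j : Fin n, i < j →
      (X i - X j) * q i j = X i ^ 2 * pderiv i f - X j ^ 2 * pderiv j f) ∧
    ∑ i : Fin n, X i ^ 2 * pderiv i (pderiv i f)
      + C (2 * τ) * ∑ i : Fin n, ∑ j : Fin n, (if i < j then q i j else 0) = C e * f

theorem Eig.sub {τ : ℝ} {f f' : MvPolynomial (Fin n) ℝ} {e : ℝ} (h : Eig τ f e)
    (h' : Eig τ f' e) : Eig τ (f - f') e := by
  obtain ⟨q, h1, h2⟩ := h
  obtain ⟨q', h1', h2'⟩ := h'
  refine ⟨fun i j => q i j - q' i j, fun i j hij => ?_, ?_⟩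
  · rw [map_sub, map_sub]
    linear_combination h1 i j hij - h1' i j hij
  · have e1 : ∑ i : Fin n, X i ^ 2 * pderiv i (pderiv i (f - f'))
        = ∑ i : Fin n, X i ^ 2 * pderiv i (pderiv i f)
          - ∑ i : Fin n, X i ^ 2 * pderiv i (pderiv i f') := by
      rw [← Finset.sum_sub_distrib]
      refine Finset.sum_congr rfl fun i _ => ?_
      rw [map_sub, map_sub, mul_sub]
    have e2 : ∑ i : Fin n, ∑ j : Fin n, (if i < j then q i j - q' i j else 0)
        = ∑ i : Fin n, ∑ j : Fin n, (if i < j then q i j else 0)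
          - ∑ i : Fin n, ∑ j : Fin n, (if i < j then q' i j else 0) := by
      rw [← Finset.sum_sub_distrib]
      refine Finset.sum_congr rfl fun i _ => ?_
      rw [← Finset.sum_sub_distrib]
      refine Finset.sum_congr rfl fun j _ => ?_
      split_ifs
      · rfl
      · rw [sub_zero]
    rw [e1, e2]
    linear_combination h2 - h2'

theorem coeff_eig {τ : ℝ} {f : MvPolynomial (Fin n) ℝ} {e : ℝ} (h : Eig τ f e)
    (m : Fin n →₀ ℕ) (ha : Above f m) : ev τ m * coeff m f = e * coeff m f := by
  obtain ⟨q, h1, h2⟩ := h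
  have hc := congrArg (coeff m) h2
  have hqc : ∀ i j : Fin n, i < j → coeff m (q i j) = (m i : ℝ) * coeff m f := by
    intro i j hij
    have key := coeff_quot i j hij.ne f (q i j) (h1 i j hij) (m j) (m.erase j)
      (by simp) (by
        intro k l hk hkl
        refine ha i j hij _ k hk ?_
        have e1 : m.erase j + Finsupp.single j (m j) = m := by
          rw [add_comm]; exact Finsupp.single_add_erase j m
        conv_rhs => rw [← e1]
        rw [← hkl, Finsupp.single_add j k l]
        abel)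
    have e1 : m.erase j + Finsupp.single j (m j) = m := by
      rw [add_comm]; exact Finsupp.single_add_erase j m
    rw [e1, Finsupp.erase_ne hij.ne] at key
    exact key
  rw [coeff_add, coeff_sum, coeff_C_mul, coeff_C_mul, coeff_sum] at hc
  rw [← hc, ev, add_mul, Finset.sum_mul, mul_assoc, Finset.sum_mul]
  congr 1
  · refine Finset.sum_congr rfl fun i _ => ?_
    rw [coeff_X_sq_mul]
  · congr 1
    refine Finset.sum_congr rfl fun i _ => ?_
    rw [coeff_sum, Finset.sum_mul]
    refine Finset.sum_congr rfl fun j _ => ?_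
    split_ifs with hij
    · rw [hqc i j hij]
    · rw [coeff_zero, zero_mul]

/-- the energy inequality on sequences -/
theorem energy (a b : ℕ → ℝ) (n : ℕ) (hs : ∀ i, i + 1 < n → a (i + 1) + b (i + 1) ≤ a i + b i)
    (hdom : ∀ k ≤ n, 0 ≤ ∑ i ∈ range k, (b i - a i))
    (hsum : ∑ i ∈ range n, (b i - a i) = 0) :
    0 ≤ ∑ i ∈ range n, (b i * b i - a i * a i) := by
  have key : ∀ k, k + 1 ≤ n → (∑ i ∈ range (k + 1), (b i - a i)) * (a k + b k)
      ≤ ∑ i ∈ range (k + 1), (b i * b i - a i * a i) := by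
    intro k
    induction k with
    | zero =>
      intro _
      simp only [zero_add, Finset.sum_range_one]
      apply le_of_eq
      ring
    | succ k ih =>
      intro hk
      have h1 := ih (by omega)
      have h2 := hs k (by omega)
      have h3 := hdom (k + 1) (by omega)
      rw [Finset.sum_range_succ, Finset.sum_range_succ (fun i => b i * b i - a i * a i)]
      have h4 := mul_nonneg h3 (sub_nonneg.mpr h2)
      nlinarith
  rcases Nat.eq_zero_or_pos n with h0 | h0
  · subst h0
    simp
  · obtain ⟨k, rfl⟩ : ∃ k, n = k + 1 := ⟨n - 1, by omega⟩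
    have := key k le_rfl
    rw [hsum, zero_mul] at this
    exact this

/-- extension of a finite sequence by zero -/
noncomputable def ext (a : Fin n → ℕ) (k : ℕ) : ℝ := if h : k < n then (a ⟨k, h⟩ : ℝ) else 0

theorem ext_coe (a : Fin n → ℕ) (i : Fin n) : ext a (i : ℕ) = (a i : ℝ) := by
  simp [ext]

theorem sum_ite_lt (f : ℕ → ℝ) (j : Fin n) :
    ∑ i : Fin n, (if i < j then f i else 0) = ∑ k ∈ range (j : ℕ), f k := by
  have h1 : ∑ i : Fin n, (if i < j then f i else 0)
      = ∑ i : Fin n, (fun k : ℕ => if k < (j : ℕ) then f k else 0) (i : ℕ) := by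
    refine Finset.sum_congr rfl fun i _ => ?_
    simp only [Fin.lt_def]
  rw [h1, Fin.sum_univ_eq_sum_range (fun k : ℕ => if k < (j : ℕ) then f k else 0) n,
    ← Finset.sum_filter]
  refine Finset.sum_congr ?_ fun _ _ => rfl
  ext k
  have := j.isLt
  simp only [Finset.mem_filter, Finset.mem_range]
  omega

theorem ev_lt {τ : ℝ} (hτ : 0 < τ) (a b : Fin n → ℕ) (ha : ∀ i j, i < j → a j ≤ a i)
    (hb : ∀ i j, i < j → b j ≤ b i)
    (hdom : ∀ k ≤ n, ∑ i ∈ range k, ext a i ≤ ∑ i ∈ range k, ext b i)
    (hsum : ∑ i, a i = ∑ i, b i) (hne : a ≠ b) : ev τ a < ev τ b := by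
  have hsr : ∑ i ∈ range n, (ext b i - ext a i) = 0 := by
    rw [Finset.sum_sub_distrib, ← Fin.sum_univ_eq_sum_range, ← Fin.sum_univ_eq_sum_range]
    simp only [ext_coe]
    rw [sub_eq_zero, ← Nat.cast_sum, ← Nat.cast_sum, hsum]
  have hP : ∀ k ≤ n, 0 ≤ ∑ i ∈ range k, (ext b i - ext a i) := by
    intro k hk
    rw [Finset.sum_sub_distrib]
    linarith [hdom k hk]
  have hE := energy (ext a) (ext b) n (by
    intro i hi
    have h1 := ha ⟨i, by omega⟩ ⟨i + 1, hi⟩ (by simp [Fin.lt_def])
    have h2 := hb ⟨i, by omega⟩ ⟨i + 1, hi⟩ (by simp [Fin.lt_def])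
    have h3 : (ext a (i + 1) : ℝ) ≤ ext a i := by
      unfold ext
      rw [dif_pos hi, dif_pos (by omega)]
      exact_mod_cast h1
    have h4 : (ext b (i + 1) : ℝ) ≤ ext b i := by
      unfold ext
      rw [dif_pos hi, dif_pos (by omega)]
      exact_mod_cast h2
    linarith) hP hsr
  have hE' : ∑ i, (a i : ℝ) * a i ≤ ∑ i, (b i : ℝ) * b i := by
    rw [← Fin.sum_univ_eq_sum_range (fun i => ext b i * ext b i - ext a i * ext a i)] at hE
    simp only [ext_coe] at hE
    rw [Finset.sum_sub_distrib] at hE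
    linarith
  have hlin : ∀ c : Fin n → ℕ, ∑ i : Fin n, ∑ j : Fin n, (if i < j then (c i : ℝ) else 0)
      = ∑ j : Fin n, ∑ k ∈ range (j : ℕ), ext c k := by
    intro c
    rw [Finset.sum_comm]
    refine Finset.sum_congr rfl fun j _ => ?_
    rw [← sum_ite_lt]
    simp only [ext_coe]
  have hstrict : ∑ j : Fin n, ∑ k ∈ range (j : ℕ), ext a k
      < ∑ j : Fin n, ∑ k ∈ range (j : ℕ), ext b k := by
    refine lt_of_le_of_ne (Finset.sum_le_sum fun j _ => hdom j j.isLt.le) fun heq => hne ?_
    have hall := (Finset.sum_eq_sum_iff_of_le (s := Finset.univ)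
      (f := fun j : Fin n => ∑ k ∈ range (j : ℕ), ext a k)
      (g := fun j : Fin n => ∑ k ∈ range (j : ℕ), ext b k)
      fun j _ => hdom (j : ℕ) j.isLt.le).mp heq
    have hPk : ∀ k ≤ n, ∑ i ∈ range k, ext a i = ∑ i ∈ range k, ext b i := by
      intro k hk
      rcases Nat.lt_or_ge k n with h | h
      · exact hall ⟨k, h⟩ (Finset.mem_univ _)
      · have : k = n := by omega
        subst this
        rw [Finset.sum_sub_distrib, sub_eq_zero] at hsr
        exact hsr.symm
    funext i
    have h1 := hPk i i.isLt.le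
    have h2 := hPk (i + 1) i.isLt
    rw [Finset.sum_range_succ, Finset.sum_range_succ, h1, add_right_inj, ext_coe, ext_coe] at h2
    exact_mod_cast h2
  unfold ev
  rw [hlin a, hlin b, Finset.sum_sub_distrib, Finset.sum_sub_distrib]
  have hs' : ∑ i, (a i : ℝ) = ∑ i, (b i : ℝ) := by
    exact_mod_cast hsum
  have := mul_lt_mul_of_pos_left hstrict (show (0 : ℝ) < 2 * τ by positivity)
  linarith

/-- a linear function which increases on raising -/
def rho (m : Fin n →₀ ℕ) : ℕ := ∑ i : Fin n, (n - (i : ℕ)) * m i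

theorem rho_raise {m m' : Fin n →₀ ℕ} {i j : Fin n} (hij : i < j) {k : ℕ} (hk : 1 ≤ k)
    (h : m' + Finsupp.single j k = m + Finsupp.single i k) : rho m < rho m' := by
  have hr : rho (m' + Finsupp.single j k) = rho (m + Finsupp.single i k) := by rw [h]
  have hadd : ∀ (u : Fin n →₀ ℕ) (l : Fin n), rho (u + Finsupp.single l k)
      = rho u + (n - (l : ℕ)) * k := by
    intro u l
    unfold rho
    simp only [Finsupp.add_apply, mul_add, Finset.sum_add_distrib]
    congr 1
    rw [Finset.sum_eq_single l]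
    · simp
    · intro b _ hb
      simp [hb.symm]
    · intro hl
      exact absurd (Finset.mem_univ l) hl
  rw [hadd, hadd] at hr
  have h1 : (n - (j : ℕ)) * k < (n - (i : ℕ)) * k := by
    apply Nat.mul_lt_mul_of_pos_right
    · have := j.isLt
      have := Fin.lt_def.mp hij
      omega
    · omega
  omega

/-- the partition condition -/
def Dom (f : MvPolynomial (Fin n) ℝ) (b : Fin n → ℕ) : Prop :=
  ∀ m, coeff m f ≠ 0 → ∑ i, m i = ∑ i, b i ∧
    ∀ k ≤ n, ∑ i ∈ range k, ext m i ≤ ∑ i ∈ range k, ext b i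

theorem sum_ext_raise {m m' : Fin n →₀ ℕ} {i j : Fin n} (hij : i < j) {k : ℕ}
    (h : m' + Finsupp.single j k = m + Finsupp.single i k) :
    ∑ l ∈ range ((i : ℕ) + 1), ext m' l = ∑ l ∈ range ((i : ℕ) + 1), ext m l + k := by
  rw [Finset.sum_range_succ, Finset.sum_range_succ, ext_coe, ext_coe]
  have h1 : m' i = m i + k := by
    have := DFunLike.congr_fun h i
    simpa [hij.ne, hij.ne'] using this
  have h2 : ∀ l ∈ range (i : ℕ), ext m' l = ext m l := by
    intro l hl
    rw [Finset.mem_range] at hl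
    have hln : l < n := lt_trans hl i.isLt
    unfold ext
    rw [dif_pos hln, dif_pos hln]
    have hli : (⟨l, hln⟩ : Fin n) ≠ i := by
      intro h
      have := congrArg Fin.val h
      simp at this
      omega
    have hlj : (⟨l, hln⟩ : Fin n) ≠ j := by
      intro h
      have := congrArg Fin.val h
      have := Fin.lt_def.mp hij
      simp at *
      omega
    have := DFunLike.congr_fun h ⟨l, hln⟩
    simp only [Finsupp.add_apply, Finsupp.single_apply, if_neg hli.symm, if_neg hlj.symm,
      add_zero] at this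
    exact_mod_cast this
  rw [Finset.sum_congr rfl h2, h1]
  push_cast
  ring

theorem above_top {f : MvPolynomial (Fin n) ℝ} {b : Fin n →₀ ℕ} (h : Dom f b) : Above f b := by
  intro i j hij m' k hk hm
  by_contra hne
  have h1 := (h m' hne).2 ((i : ℕ) + 1) i.isLt
  rw [sum_ext_raise hij hm] at h1
  have : (1 : ℝ) ≤ k := by exact_mod_cast hk
  linarith

theorem exists_max {g : MvPolynomial (Fin n) ℝ} (hg : g ≠ 0) (hsym : g.IsSymmetric) :
    ∃ m, coeff m g ≠ 0 ∧ Above g m ∧ ∀ i j, i < j → m j ≤ m i := by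
  obtain ⟨m, hm, hmax⟩ := Finset.exists_max_image g.support rho
    (MvPolynomial.support_nonempty.mpr hg)
  refine ⟨m, MvPolynomial.mem_support_iff.mp hm, ?_, ?_⟩
  · intro i j hij m' k hk h
    by_contra hne
    have := hmax m' (MvPolynomial.mem_support_iff.mpr hne)
    have := rho_raise hij hk h
    omega
  · intro i j hij
    by_contra hlt
    push Not at hlt
    obtain ⟨k, hk⟩ : ∃ k, m j = m i + k := ⟨m j - m i, by omega⟩
    have hs : coeff (m.mapDomain (Equiv.swap i j)) g = coeff m g := by
      have h1 := MvPolynomial.coeff_rename_mapDomain (Equiv.swap i j)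
        (Equiv.swap i j).injective g m
      rw [hsym (Equiv.swap i j)] at h1
      exact h1
    have hval : ∀ l, (m.mapDomain (Equiv.swap i j)) l = m (Equiv.swap i j l) := by
      intro l
      rw [← Finsupp.equivMapDomain_eq_mapDomain, Finsupp.equivMapDomain_apply]
      simp
    have hr : m.mapDomain (Equiv.swap i j) + Finsupp.single j k = m + Finsupp.single i k := by
      ext l
      rw [Finsupp.add_apply, Finsupp.add_apply, hval]
      rcases eq_or_ne l i with rfl | hi
      · rw [Equiv.swap_apply_left]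
        simp [hij.ne, hk]
      · rcases eq_or_ne l j with rfl | hj
        · rw [Equiv.swap_apply_right]
          simp [hij.ne', hk]
        · rw [Equiv.swap_apply_of_ne_of_ne hi hj]
          simp [hi, hj]
    have h1 := rho_raise hij (by omega) hr
    have h2 := hmax (m.mapDomain (Equiv.swap i j))
      (MvPolynomial.mem_support_iff.mpr (by rw [hs]; exact MvPolynomial.mem_support_iff.mp hm))
    omega

/-- uniqueness -/
theorem unique {τ : ℝ} (hτ : 0 < τ) {b : Fin n →₀ ℕ} (hb : ∀ i j, i < j → b j ≤ b i)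
    {c : ℝ} (hc : c ≠ 0) {f f' : MvPolynomial (Fin n) ℝ} (hs : f.IsSymmetric)
    (hs' : f'.IsSymmetric) (hd : Dom f b) (hd' : Dom f' b) (h1 : coeff b f = c)
    (h1' : coeff b f' = c) {e e' : ℝ} (he : Eig τ f e) (he' : Eig τ f' e') : f = f' := by
  have e1 : ev τ b = e := by
    have := coeff_eig he b (above_top hd)
    rw [h1] at this
    exact mul_right_cancel₀ hc this
  have e2 : ev τ b = e' := by
    have := coeff_eig he' b (above_top hd')
    rw [h1'] at this
    exact mul_right_cancel₀ hc this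
  subst e1
  rw [← e2] at he'
  by_contra hne
  have hg := he.sub he'
  obtain ⟨m, hm0, hma, hmanti⟩ := exists_max (sub_ne_zero.mpr hne) (hs.sub hs')
  have hev := coeff_eig hg m hma
  have hev' : ev τ m = ev τ b := mul_right_cancel₀ hm0 hev
  have hmb : (m : Fin n → ℕ) ≠ b := by
    intro h
    have hmb' : m = b := DFunLike.coe_injective h
    apply hm0
    rw [hmb', coeff_sub, h1, h1', sub_self]
  have hmd : ∑ i, m i = ∑ i, b i ∧
      ∀ k ≤ n, ∑ i ∈ range k, ext m i ≤ ∑ i ∈ range k, ext b i := by
    by_cases hf : coeff m f = 0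
    · refine hd' m fun h => hm0 ?_
      rw [coeff_sub, hf, h, sub_self]
    · exact hd m hf
  exact (ev_lt hτ m b hmanti hb hmd.2 hmd.1 hmb).ne hev'

end Pool.Agent.MPcdddd3U
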